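import Pool.Agent.SXF.Stmts

set_option autoImplicit false

/-! Row DET: interface of determinants. -/

namespace Pool.Agent.SXF.H72

open MvPolynomial Matrix Pool.Agent.SXF

/-- The localised determinant identity. -/
theorem det_identity {R : Type} [CommRing R] [IsDomain R] {N m : Type} [Fintype N] [DecidableEq N]
    [Fintype m] [DecidableEq m] (M : Matrix N N R) (U : Matrix N m R) (W : Matrix m N R)
    (hd : M.det ≠ 0) :
    M.det ^ (Fintype.card m) * (M + U * W).det =
      M.det * (M.det • (1 : Matrix m m R) + W * M.adjugate * U).det := by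
  classical
  set K := FractionRing R
  set f : R →+* K := algebraMap R K with hf
  have hinj : Function.Injective f := IsFractionRing.injective R K
  apply hinj
  have hd' : (f.mapMatrix M).det ≠ 0 := by
    rw [← RingHom.map_det]
    exact fun h => hd (hinj (by rw [h, map_zero]))
  have hu : IsUnit (f.mapMatrix M).det := isUnit_iff_ne_zero.mpr hd'
  have e1 : f.mapMatrix (M + U * W) = f.mapMatrix M + U.map f * W.map f := by
    ext i j
    simp [Matrix.mul_apply, Matrix.map_apply]
  have e2 : f.mapMatrix (M.det • (1 : Matrix m m R) + W * M.adjugate * U) =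
      (f.mapMatrix M).det • ((1 : Matrix m m K) + W.map f * (f.mapMatrix M)⁻¹ * U.map f) := by
    have ha : (f.mapMatrix M).adjugate = (f.mapMatrix M).det • (f.mapMatrix M)⁻¹ := by
      rw [Matrix.inv_def, smul_smul, Ring.mul_inverse_cancel _ hu, one_smul]
    have hm : f.mapMatrix M.adjugate = (f.mapMatrix M).adjugate := RingHom.map_adjugate f M
    have h1 : (W * M.adjugate * U).map f = W.map f * (f.mapMatrix M.adjugate) * U.map f := by
      rw [Matrix.map_mul, Matrix.map_mul]
      rfl
    have h2 : f.mapMatrix (M.det • (1 : Matrix m m R) + W * M.adjugate * U) =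
        f M.det • (1 : Matrix m m K) + (W * M.adjugate * U).map f := by
      ext i j
      simp only [RingHom.mapMatrix_apply, Matrix.map_apply, Matrix.add_apply, Matrix.smul_apply,
        map_add, smul_eq_mul, map_mul, Matrix.one_apply, apply_ite f, map_one, map_zero]
    rw [h2, h1, hm, ha, RingHom.map_det, smul_add, Matrix.mul_smul, Matrix.smul_mul]
  rw [map_mul, map_mul, map_pow, RingHom.map_det, RingHom.map_det, RingHom.map_det, e1, e2,
    Matrix.det_add_mul _ _ hu, Matrix.det_smul]
  ring

theorem det_mem' {E R : Type} [CommRing E] [CommRing R] [Algebra E R] (S : Subalgebra E R)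
    {N : Type} [Fintype N] [DecidableEq N] (M : Matrix N N R) (h : ∀ i j, M i j ∈ S) :
    M.det ∈ S := by
  rw [Matrix.det_apply]
  refine S.sum_mem fun σ _ => ?_
  rw [Units.smul_def]
  exact S.toSubring.zsmul_mem (S.prod_mem fun i _ => h _ _) _

theorem adj_mem' {E R : Type} [CommRing E] [CommRing R] [Algebra E R] (S : Subalgebra E R)
    {N : Type} [Fintype N] [DecidableEq N] (M : Matrix N N R) (h : ∀ i j, M i j ∈ S) (i j : N) :
    M.adjugate i j ∈ S := by
  rw [Matrix.adjugate_apply]
  refine det_mem' S _ fun a b => ?_
  rw [Matrix.updateRow_apply]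
  split_ifs
  · rw [Pi.single_apply]
    split_ifs
    · exact S.one_mem
    · exact S.zero_mem
  · exact h _ _

theorem det : DetStmt := by
  intro E _ n N s A ι u v hι
  classical
  set M := pencil A ι u v with hM
  have hMe : ∀ a b, M a b = C (A a b) + ∑ l, X (ι l) * C (u l a * v l b) := fun a b => rfl
  set w : ℕ → ℕ := fun i => (Finset.univ.filter fun l => ι l = i).card with hw
  have hvars : M.det.vars ⊆ Finset.univ.image ι := by
    have h1 : M.det ∈ supported E ((Finset.univ.image ι : Finset ℕ) : Set ℕ) := by
      refine det_mem' _ _ fun a b => ?_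
      rw [hMe]
      refine add_mem (Subalgebra.algebraMap_mem _ _) (Subalgebra.sum_mem _ fun l _ => ?_)
      refine mul_mem ?_ (Subalgebra.algebraMap_mem _ _)
      rw [X_mem_supported]
      simp
    rw [mem_supported] at h1
    exact_mod_cast h1
  refine ⟨fun i hi => ?_, w, ?_, fun i hi => ?_, fun B e hB => ?_⟩
  · obtain ⟨l, -, rfl⟩ := Finset.mem_image.mp (hvars hi)
    exact Finset.mem_range.mpr (hι l)
  · have h1 := Finset.card_eq_sum_card_fiberwise (f := ι) (s := (Finset.univ : Finset (Fin s)))
      (t := Finset.range n) (fun l _ => by simpa using hι l)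
    rw [Finset.card_univ, Fintype.card_fin] at h1
    exact h1.symm.le
  · obtain ⟨l, -, rfl⟩ := Finset.mem_image.mp (hvars hi)
    exact Finset.card_pos.mpr ⟨l, by simp⟩
  · set φ : MvPolynomial ℕ E →ₐ[E] MvPolynomial ℕ E :=
      aeval (fun i => if i ∈ B then C (e i) else X i) with hφ
    set M₀ : Matrix (Fin N) (Fin N) (MvPolynomial ℕ E) := φ.mapMatrix M with hM₀
    have hfr : freeze B e M.det = M₀.det := by
      rw [hM₀, ← AlgHom.map_det]
      rfl
    have hM₀e : ∀ a b, M₀ a b = C (A a b) +
        ∑ l, (if ι l ∈ B then C (e (ι l)) else X (ι l)) * C (u l a * v l b) := by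
      intro a b
      rw [hM₀, AlgHom.mapMatrix_apply, Matrix.map_apply, hMe]
      simp only [map_add, map_sum, map_mul, hφ, aeval_X, aeval_C, MvPolynomial.algebraMap_eq]
    have hM₀s : ∀ a b, M₀ a b ∈ supported E ((B : Set ℕ)ᶜ) := by
      intro a b
      rw [hM₀e]
      refine add_mem (Subalgebra.algebraMap_mem _ _) (Subalgebra.sum_mem _ fun l _ => ?_)
      refine mul_mem ?_ (Subalgebra.algebraMap_mem _ _)
      split_ifs with h
      · exact Subalgebra.algebraMap_mem _ _
      · rw [X_mem_supported]
        simpa using h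
    let m := {l : Fin s // ι l ∈ B}
    let U : Matrix (Fin N) m (MvPolynomial ℕ E) := Matrix.of fun a l => C (u l a)
    let V : Matrix m (Fin N) (MvPolynomial ℕ E) := Matrix.of fun l b => C (v l b)
    let D : Matrix m m (MvPolynomial ℕ E) :=
      Matrix.diagonal fun l => X (ι l) - C (e (ι l))
    have hsum : M = M₀ + U * (D * V) := by
      ext1 a b
      rw [Matrix.add_apply, Matrix.mul_apply, hM₀e, hMe, add_assoc]
      congr 1
      have h1 : ∑ l : m, U a l * (D * V) l b =
          ∑ l : Fin s, if ι l ∈ B then (X (ι l) - C (e (ι l))) * C (u l a * v l b) else 0 := by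
        rw [← Finset.sum_filter, Finset.sum_subtype (Finset.univ.filter fun l => ι l ∈ B)
          (p := fun l => ι l ∈ B) (by simp)]
        refine Finset.sum_congr rfl fun l _ => ?_
        rw [Matrix.diagonal_mul]
        simp only [U, V, Matrix.of_apply, map_mul]
        ring
      rw [h1, ← Finset.sum_add_distrib]
      refine Finset.sum_congr rfl fun l _ => ?_
      split_ifs
      · ring
      · ring
    have hcard : ∑ i ∈ B, w i = Fintype.card m := by
      rw [Fintype.card_subtype]
      have h1 := Finset.card_eq_sum_card_fiberwise (f := ι)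
        (s := (Finset.univ.filter fun l => ι l ∈ B)) (t := B) (fun l hl => by simpa using hl)
      rw [h1]
      refine Finset.sum_congr rfl fun i hi => ?_
      refine congrArg Finset.card ?_
      ext l
      simp only [Finset.mem_filter, Finset.mem_univ, true_and]
      exact ⟨fun h => ⟨h ▸ hi, h⟩, fun h => h.2⟩
    let P : Matrix m m (MvPolynomial ℕ E) := V * M₀.adjugate * U
    let g : Option (m × m) → MvPolynomial ℕ E := fun x => x.elim M₀.det fun q => P q.1 q.2
    let eq := Fintype.equivFin (Option (m × m))
    have hPs : ∀ l l', P l l' ∈ supported E ((B : Set ℕ)ᶜ) := by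
      intro l l'
      simp only [P, Matrix.mul_apply, U, V, Matrix.of_apply]
      refine Subalgebra.sum_mem _ fun a _ => mul_mem (Subalgebra.sum_mem _ fun b _ => ?_)
        (Subalgebra.algebraMap_mem _ _)
      exact mul_mem (Subalgebra.algebraMap_mem _ _) (adj_mem' _ _ hM₀s _ _)
    have hgs : ∀ x, g x ∈ supported E ((B : Set ℕ)ᶜ) := by
      intro x
      rcases x with _ | ⟨l, l'⟩
      · exact det_mem' _ _ hM₀s
      · exact hPs l l'
    by_cases hd : M₀.det = 0
    · refine ⟨0, 1, Fin.elim0, Nat.zero_le _, fun l => l.elim0, ?_⟩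
      rw [hfr, hd, pow_one, zero_mul]
      exact Subalgebra.zero_mem _
    · refine ⟨Fintype.card (Option (m × m)), Fintype.card m, fun i => g (eq.symm i), ?_,
        fun l => ?_, ?_⟩
      · rw [Fintype.card_option, Fintype.card_prod, hcard]
        exact (by rw [pow_two] : Fintype.card m * Fintype.card m + 1 =
          (Fintype.card m) ^ 2 + 1).le
      · have h1 := hgs (eq.symm l)
        rw [mem_supported] at h1
        rw [Finset.disjoint_left]
        intro i hi hiB
        exact h1 hi hiB
      · rw [hfr]
        have h2 := det_identity M₀ U (D * V) hd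
        rw [← hsum] at h2
        rw [h2]
        set S := Algebra.adjoin E (Set.range (fun i => g (eq.symm i)) ∪ X '' (B : Set ℕ)) with hS
        have hg : ∀ x, g x ∈ S := fun x =>
          Algebra.subset_adjoin (Or.inl ⟨eq x, by simp⟩)
        have hdS : M₀.det ∈ S := hg none
        have hPS : ∀ l l', P l l' ∈ S := fun l l' => hg (some (l, l'))
        refine mul_mem hdS (det_mem' _ _ fun l l' => ?_)
        rw [Matrix.add_apply, Matrix.smul_apply, Matrix.mul_assoc, Matrix.mul_assoc,
          Matrix.diagonal_mul, ← Matrix.mul_assoc]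
        refine add_mem ?_ (mul_mem (sub_mem ?_ (Subalgebra.algebraMap_mem _ _)) (hPS l l'))
        · rw [smul_eq_mul, Matrix.one_apply]
          split_ifs
          · rw [mul_one]; exact hdS
          · rw [mul_zero]; exact Subalgebra.zero_mem _
        · exact Algebra.subset_adjoin (Or.inr ⟨ι l, l.2, rfl⟩)

end Pool.Agent.SXF.H72
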